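import Mathlib

set_option autoImplicit false

/-!
# Bohr neighbourhoods of zero have bounded gaps; points of the circle and real numbers
-/

namespace Pool.Agent.TH402.FB

open Finset

/-- Bohr neighbourhoods of zero are syndetic -/
theorem syn (Θ : Finset ℝ) (ρ : ℝ) (hρ : 0 < ρ) : ∃ R : ℕ, ∀ u : ℕ, ∃ d : ℕ, u < d ∧ d ≤ u + R ∧
    ∀ θ ∈ Θ, |(d : ℝ) * θ - round ((d : ℝ) * θ)| < ρ := by
  classical
  obtain ⟨m, hm⟩ := exists_nat_gt (1 / ρ)
  have hm0 : (0 : ℝ) < m := lt_trans (by positivity) hm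
  have hmN : 0 < m := by exact_mod_cast hm0
  -- the cell of an integer
  let cell : ℤ → (Θ → Fin m) := fun n θ =>
    ⟨⌊Int.fract ((n : ℝ) * θ) * m⌋₊, by
      have h1 := Int.fract_lt_one ((n : ℝ) * (θ : ℝ))
      have h0 := Int.fract_nonneg ((n : ℝ) * (θ : ℝ))
      rw [Nat.floor_lt (by positivity)]
      nlinarith⟩
  have hcell : ∀ n n' : ℤ, cell n = cell n' → ∀ θ ∈ Θ, ∃ w : ℤ,
      |((n - n' : ℤ) : ℝ) * θ - w| < ρ := by
    intro n n' h θ hθ
    have h1 := congrArg Fin.val (congrFun h ⟨θ, hθ⟩)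
    have h2 : ⌊Int.fract ((n : ℝ) * θ) * m⌋₊ = ⌊Int.fract ((n' : ℝ) * θ) * m⌋₊ := h1
    have a0 := Int.fract_nonneg ((n : ℝ) * θ)
    have b0 := Int.fract_nonneg ((n' : ℝ) * θ)
    have a1 := Nat.floor_le (show 0 ≤ Int.fract ((n : ℝ) * θ) * m by positivity)
    have a2 := Nat.lt_floor_add_one (Int.fract ((n : ℝ) * θ) * m)
    have b1 := Nat.floor_le (show 0 ≤ Int.fract ((n' : ℝ) * θ) * m by positivity)
    have b2 := Nat.lt_floor_add_one (Int.fract ((n' : ℝ) * θ) * m)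
    rw [← h2] at b1 b2
    refine ⟨⌊(n : ℝ) * θ⌋ - ⌊(n' : ℝ) * θ⌋, ?_⟩
    have e : ((n - n' : ℤ) : ℝ) * θ - ((⌊(n : ℝ) * θ⌋ - ⌊(n' : ℝ) * θ⌋ : ℤ) : ℝ) =
        Int.fract ((n : ℝ) * θ) - Int.fract ((n' : ℝ) * θ) := by
      unfold Int.fract
      push_cast
      ring
    rw [e]
    have h3 : |Int.fract ((n : ℝ) * θ) - Int.fract ((n' : ℝ) * θ)| * m < 1 := by
      have e3 : |Int.fract ((n : ℝ) * θ) - Int.fract ((n' : ℝ) * θ)| * m =
          |(Int.fract ((n : ℝ) * θ) - Int.fract ((n' : ℝ) * θ)) * m| := by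
        rw [abs_mul, abs_of_pos hm0]
      rw [e3, sub_mul, abs_lt]
      constructor <;> linarith
    have h4 : 1 / (m : ℝ) < ρ := by
      rw [div_lt_iff₀ hm0]
      rw [div_lt_iff₀ hρ] at hm
      linarith
    refine lt_trans ?_ h4
    rw [lt_div_iff₀ hm0]
    exact h3
  -- representatives of the cells
  have hrep : ∀ c : (Θ → Fin m), ∃ r : ℤ, (∃ n, cell n = c) → cell r = c := by
    intro c
    by_cases h : ∃ n, cell n = c
    · obtain ⟨n, hn⟩ := h
      exact ⟨n, fun _ => hn⟩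
    · exact ⟨0, fun h' => absurd h' h⟩
  choose rep hrep using hrep
  obtain ⟨B, hB⟩ : ∃ B : ℕ, ∀ c, |rep c| ≤ B := by
    refine ⟨∑ c, (rep c).natAbs, fun c => ?_⟩
    rw [Int.abs_eq_natAbs]
    exact_mod_cast single_le_sum (f := fun c => (rep c).natAbs) (fun _ _ => Nat.zero_le _)
      (mem_univ c)
  refine ⟨2 * B + 1, fun u => ?_⟩
  -- the difference of a number and its representative
  obtain ⟨n, hn⟩ : ∃ n : ℤ, n = u + B + 1 := ⟨_, rfl⟩
  have h1 := hrep (cell n) ⟨n, rfl⟩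
  have h2 := abs_le.1 (hB (cell n))
  have h3 : 0 ≤ n - rep (cell n) := by omega
  obtain ⟨d, hd⟩ := Int.eq_ofNat_of_zero_le h3
  refine ⟨d, by omega, by omega, fun θ hθ => ?_⟩
  obtain ⟨w, hw⟩ := hcell n (rep (cell n)) h1.symm θ hθ
  rw [hd] at hw
  refine (round_le _ w).trans_lt ?_
  simpa using hw

/-- from points of the circle to real numbers -/
theorem conv (T : Finset Circle) (ρ : ℝ) (hρ : 0 < ρ) : ∃ (Θ : Finset ℝ) (ρ' : ℝ), 0 < ρ' ∧
    ∀ k : ℕ, (∀ θ ∈ Θ, |(k : ℝ) * θ - round ((k : ℝ) * θ)| < ρ') →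
      ∀ z ∈ T, ‖((z ^ (k : ℤ) : Circle) : ℂ) - 1‖ < ρ := by
  classical
  refine ⟨T.image fun z : Circle => Complex.arg (z : ℂ) / (2 * Real.pi), ρ / 7, by positivity, ?_⟩
  intro k hk z hz
  have h1 := hk _ (mem_image_of_mem (fun z : Circle => Complex.arg (z : ℂ) / (2 * Real.pi)) hz)
  set t : ℝ := Complex.arg z with ht
  set w : ℤ := round ((k : ℝ) * (t / (2 * Real.pi))) with hw
  have hpi := Real.pi_pos
  have hz1 : ((z : Circle) : ℂ) = Complex.exp (t * Complex.I) := by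
    have := Complex.norm_mul_exp_arg_mul_I (z : ℂ)
    rw [Circle.norm_coe, Complex.ofReal_one, one_mul] at this
    exact this.symm
  have hz2 : ((z ^ (k : ℤ) : Circle) : ℂ) =
      Complex.exp (((k : ℝ) * t - w * (2 * Real.pi) : ℝ) * Complex.I) := by
    rw [zpow_natCast, Circle.coe_pow, hz1, ← Complex.exp_nat_mul]
    have e : (((k : ℝ) * t - w * (2 * Real.pi) : ℝ) : ℂ) * Complex.I =
        (k : ℂ) * ((t : ℂ) * Complex.I) - w * (2 * Real.pi * Complex.I) := by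
      push_cast
      ring
    rw [e, Complex.exp_sub, Complex.exp_int_mul_two_pi_mul_I, div_one]
  rw [hz2]
  have h2 : ‖Complex.exp (((k : ℝ) * t - w * (2 * Real.pi) : ℝ) * Complex.I) - 1‖ ≤
      |(k : ℝ) * t - w * (2 * Real.pi)| := by
    have := Real.norm_exp_I_mul_ofReal_sub_one_le (x := (k : ℝ) * t - w * (2 * Real.pi))
    rw [mul_comm] at this
    simpa [Real.norm_eq_abs] using this
  refine h2.trans_lt ?_
  have h3 : (k : ℝ) * t - w * (2 * Real.pi) =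
      (2 * Real.pi) * ((k : ℝ) * (t / (2 * Real.pi)) - w) := by
    field_simp
  rw [h3, abs_mul, abs_of_pos (by positivity : (0 : ℝ) < 2 * Real.pi)]
  have h4 := Real.pi_lt_d2
  have h5 : 0 ≤ |(k : ℝ) * (t / (2 * Real.pi)) - w| := abs_nonneg _
  nlinarith

end Pool.Agent.TH402.FB
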