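import Pool.Agent.TH402.FB.Rel

set_option autoImplicit false

/-!
# Differences of primes of the same colour
-/

open Filter Topology Finset

namespace Pool.Agent.TH402.FB

open Pool.Agent.H947R3.GM Pool.Agent.W59.GB Pool.Agent.W142.TF Pool.Agent.W27.FB
open Pool.Agent.H732R3.BigQ

/-- for every finite colouring of the primes almost all elements of a Bohr neighbourhood of zero are
differences of many pairs of primes of the same colour -/
theorem colour (q a k : ℕ) (hq : 0 < q) (ha : a.Coprime q) (col : ℕ → Fin k) :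
    ∃ (Θ : Finset ℝ) (ρ : ℝ), 0 < ρ ∧ ∀ ε : ℝ, 0 < ε → ∃ L₀ : ℕ, ∀ L : ℕ, L₀ ≤ L → ∀ u : ℕ,
      ({d : ℕ | u < d ∧ d ≤ u + L ∧ (∀ θ ∈ Θ, |(d : ℝ) * θ - round ((d : ℝ) * θ)| < ρ) ∧
        ¬ ∀ η : ℝ, 0 < η → ∃ᶠ x : ℝ in atTop, x ^ (1 - η) ≤
          ({p : ℕ | p.Prime ∧ (p + d).Prime ∧ (p : ℝ) ≤ x ∧ p ≡ a [MOD q] ∧ col p = col (p + d) ∧
            Nat.primeCounting (p + d) ≤ Nat.primeCounting p + k}.ncard : ℝ)}.ncard : ℝ) ≤ ε * L := by
  classical
  have hR : ∀ j : ℕ, ∃ i l, j ≤ i ∧ i < l ∧ l ≤ j + k ∧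
      col (Nat.nth Nat.Prime i) = col (Nat.nth Nat.Prime l) := by
    intro j
    obtain ⟨x, y, hxy, h⟩ := Fintype.exists_ne_map_eq_of_card_lt
      (fun i : Fin (k + 1) => col (Nat.nth Nat.Prime (j + i))) (by simp)
    rcases lt_or_gt_of_ne (fun h => hxy (Fin.ext h) : (x : ℕ) ≠ y) with h1 | h1
    · exact ⟨j + x, j + y, by omega, by omega, by have := y.2; omega, h⟩
    · exact ⟨j + y, j + x, by omega, by omega, by have := x.2; omega, h.symm⟩
  obtain ⟨M₁, hM, T, ρ₀, hρ₀, hnull⟩ := gapsR q a hq ha k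
    (R := fun i l => col (Nat.nth Nat.Prime i) = col (Nat.nth Nat.Prime l)) hR
  obtain ⟨Θ, ρ, hρ, H⟩ := transfer hM hq hρ₀ hnull
  refine ⟨Θ, ρ, hρ, fun ε hε => ?_⟩
  obtain ⟨L₀, h⟩ := H ε hε
  refine ⟨L₀, fun L hL u => le_trans ?_ (h L hL u)⟩
  rw [Nat.cast_le]
  refine Set.ncard_le_ncard ?_ ((Set.finite_le_nat (u + L)).subset fun d hd => hd.2.1)
  rintro d ⟨h1, h2, h3, h4⟩
  refine ⟨h1, h2, h3, ?_⟩
  rintro ⟨c, hc, rfl⟩
  apply h4
  intro η hη
  refine (hc η hη).mono fun x hx => hx.trans ?_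
  rw [Nat.cast_le]
  refine Set.ncard_le_ncard ?_ ((Set.finite_Iic ⌊x⌋₊).subset ?_)
  · rintro n ⟨⟨g1, g2, g3, g4, g5, g6⟩, hn⟩
    refine ⟨g1, g3, hn, g2, ?_, ?_⟩
    · rwa [Nat.nth_count g1, Nat.nth_count g3] at g6
    · have e1 : Nat.primeCounting (n + q * c) = Nat.count Nat.Prime (n + q * c) + 1 := by
        unfold Nat.primeCounting Nat.primeCounting'
        rw [Nat.count_succ, if_pos g3]
      have e2 : Nat.primeCounting n = Nat.count Nat.Prime n + 1 := by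
        unfold Nat.primeCounting Nat.primeCounting'
        rw [Nat.count_succ, if_pos g1]
      rw [e1, e2]
      omega
  · rintro n ⟨_, _, hn, _⟩
    exact Nat.le_floor hn

end Pool.Agent.TH402.FB
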