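import Pool.Agent.TH402.FB.Main
import Pool.Agent.TH402.FB.Syn
import Pool.Agent.W142.TF.Fin

set_option autoImplicit false

/-!
# Gaps between consecutive primes contain almost all elements of a Bohr neighbourhood of zero
-/

open Filter Topology Finset

namespace Pool.Agent.TH402.FB

open Pool.Agent.H947R3.GM Pool.Agent.W59.GB Pool.Agent.W142.TF Pool.Agent.W27.FB

theorem zero_notMem {M₁ : ℕ} {G : Set ℕ} : (0 : ℤ) ∉ {k : ℤ | (M₁ : ℤ) * k ∈ Cpl G} := by
  intro h
  exact h.1 (mul_zero _)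

/-- the exceptional set is null in some Bohr set -/
theorem gaps (q a : ℕ) (hq : 0 < q) (ha : a.Coprime q) : ∃ M₁ : ℕ, 0 < M₁ ∧
    ∃ (T : Finset Circle) (ρ : ℝ), 0 < ρ ∧
    Null ({k : ℤ | (M₁ : ℤ) * k ∈ Cpl (GapB q a)} ∩ Bo T ρ) := by
  classical
  obtain ⟨K, hK, hcon⟩ := consecB Pool.Agent.H732R3.BigQ.quarterB hq ha
  refine ⟨(5 * K).factorial, Nat.factorial_pos _, ?_⟩
  by_contra hne
  push Not at hne
  obtain ⟨E, hE⟩ : ∃ E : Set ℤ, E = {k : ℤ | (((5 * K).factorial : ℕ) : ℤ) * k ∈ Cpl (GapB q a)} :=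
    ⟨_, rfl⟩
  rw [← hE] at hne
  have h0 : (0 : ℤ) ∉ E := by rw [hE]; exact zero_notMem
  obtain ⟨l, hl, hgood⟩ := s_main E hne (5 * K)
  have hs := good_sums l hgood
  obtain ⟨A, hA⟩ : ∃ A : ℕ → ℕ → ℤ, A = fun g i => if g < 5 then (l.take (g * K + i)).sum else i :=
    ⟨_, rfl⟩
  have hAE : ∀ g < 5, ∀ g' < 5, ∀ i < K, ∀ i' < K, g * K + i < g' * K + i' →
      A g' i' - A g i ∈ E := by
    intro g hg g' hg' i hi i' hi' h
    have h1 : g' * K ≤ 4 * K := Nat.mul_le_mul_right _ (by omega)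
    have h2 := hs (g * K + i) (g' * K + i') h (by omega)
    rw [hA]
    simp only [hg, hg', if_true]
    exact h2
  have hinj : ∀ j, Set.InjOn (A j) {k | k < K} := by
    intro j k hk k' hk' h
    simp only [Set.mem_ofPred_eq] at hk hk'
    by_cases hj : j < 5
    · rcases lt_trichotomy k k' with hlt | heq | hgt
      · have := hAE j hj j hj k hk k' hk' (by omega)
        rw [h, sub_self] at this
        exact absurd this h0
      · exact heq
      · have := hAE j hj j hj k' hk' k hk (by omega)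
        rw [h, sub_self] at this
        exact absurd this h0
    · rw [hA] at h
      simp only [hj, if_false] at h
      exact_mod_cast h
  have hcr : ∀ i j, i < j → j < 5 → ∀ k k', k < K → k' < K → A j k - A i k' ∈ E := by
    intro i j hij hj k k' hk hk'
    refine hAE i (by omega) j hj k' hk' k hk ?_
    have h1 : (i + 1) * K ≤ j * K := Nat.mul_le_mul_right _ hij
    rw [Nat.add_mul, one_mul] at h1
    omega
  obtain ⟨H, C, hH⟩ := points 5 K (5 * K).factorial (fun _ => 1) A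
  have hadm : AdmN q H := admN_of (Nat.factorial_pos _)
    (fun p hp hle => Nat.dvd_factorial hp.pos hle) (fun _ => 1) A (fun _ => le_refl 1) hinj
    (fun i j hij hj k k' hk hk' h => by
      have h1 := hcr i j hij hj k k' hk hk'
      have h2 : A j k - A i k' = 0 := by
        push_cast at h
        linarith
      rw [h2] at h1
      exact h0 h1) H C hH
  obtain ⟨g, g', i, i', hne', hlt, hG⟩ := hcon H hadm
  have key : ∀ {x y : ℤ}, x - y ∈ E → (((5 * K).factorial : ℕ) : ℤ) * (((1 : ℕ) : ℤ) * x - ((1 : ℕ) : ℤ) * y) ∈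
      Cpl (GapB q a) := by
    intro x y h
    rw [hE] at h
    have e : ((1 : ℕ) : ℤ) * x - ((1 : ℕ) : ℤ) * y = x - y := by push_cast; ring
    rw [e]
    exact h
  rcases lt_or_gt_of_ne hne' with h | h
  · have h1 := not_Cpl C (hH g' i') (hH g i) (key (hcr g g' h g'.2 i' i i'.2 i.2))
    exact h1.2.2 hlt hG
  · have h1 := not_Cpl C (hH g i) (hH g' i') (key (hcr g' g h g.2 i i' i.2 i'.2))
    exact h1.2.1 hlt hG

/-- from integers and points of the circle to natural numbers and real numbers -/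
theorem transfer {M₁ q : ℕ} (hM : 0 < M₁) (hq : 0 < q) {G : Set ℕ} {T : Finset Circle} {ρ : ℝ}
    (hρ : 0 < ρ) (hnull : Null ({k : ℤ | (M₁ : ℤ) * k ∈ Cpl G} ∩ Bo T ρ)) :
    ∃ (Θ : Finset ℝ) (ρ' : ℝ), 0 < ρ' ∧ ∀ ε : ℝ, 0 < ε → ∃ L₀ : ℕ, ∀ L : ℕ, L₀ ≤ L → ∀ u : ℕ,
      ({d : ℕ | u < d ∧ d ≤ u + L ∧ (∀ θ ∈ Θ, |(d : ℝ) * θ - round ((d : ℝ) * θ)| < ρ') ∧
        ¬ ∃ k ∈ G, d = q * k}.ncard : ℝ) ≤ ε * L := by
  classical
  obtain ⟨Θ, ρ', hρ', hconv⟩ := conv T ρ hρ
  obtain ⟨N, hN⟩ : ∃ N : ℕ, N = q * M₁ := ⟨_, rfl⟩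
  have hN0 : 0 < N := by rw [hN]; positivity
  have hNR : (0 : ℝ) < N := by exact_mod_cast hN0
  refine ⟨insert (1 / (N : ℝ)) (Θ.image fun θ : ℝ => θ / (N : ℝ)), min ρ' (1 / N), by positivity, ?_⟩
  intro ε hε
  obtain ⟨L₀, hL₀⟩ := hnull (ε / 3) (by positivity)
  refine ⟨max L₀ 1, fun L hL u => ?_⟩
  have hL1 : 1 ≤ L := (le_max_right _ _).trans hL
  have hLL : L₀ ≤ L := (le_max_left _ _).trans hL
  have h := hL₀ (L + 2) (by omega) ((u / N : ℕ) : ℤ)
  have hdvd : ∀ d : ℕ, (∀ θ ∈ insert (1 / (N : ℝ)) (Θ.image fun θ : ℝ => θ / (N : ℝ)),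
      |(d : ℝ) * θ - round ((d : ℝ) * θ)| < min ρ' (1 / N)) → N ∣ d := by
    intro d hd
    have h1 := (hd _ (mem_insert_self _ _)).trans_le (min_le_right _ _)
    set w : ℤ := round ((d : ℝ) * (1 / N)) with hw
    have h2 : |(d : ℝ) - N * w| < 1 := by
      have e : (d : ℝ) - N * w = N * ((d : ℝ) * (1 / N) - w) := by
        field_simp
      rw [e, abs_mul, abs_of_pos hNR]
      rw [lt_div_iff₀ hNR] at h1
      linarith
    have h3 : |(d : ℤ) - N * w| < 1 := by
      have : |(((d : ℤ) - N * w : ℤ) : ℝ)| < 1 := by push_cast; exact h2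
      exact_mod_cast this
    have h4 : (d : ℤ) = N * w := by
      have := Int.abs_lt_one_iff.1 h3
      linarith
    exact_mod_cast (Dvd.intro w h4.symm : (N : ℤ) ∣ d)
  refine le_trans ?_ (h.trans ?_)
  · rw [Nat.cast_le]
    refine Set.ncard_le_ncard_of_injOn (fun d => d / N - u / N) ?_ ?_
      ((Set.finite_lt_nat (L + 2)).subset fun n hn => hn.1)
    · rintro d ⟨h1, h2, h3, h4⟩
      have h5 := hdvd d h3
      obtain ⟨k, hk⟩ := h5
      have hk' : d / N = k := by rw [hk]; exact Nat.mul_div_cancel_left k hN0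
      have hle : u / N ≤ d / N := Nat.div_le_div_right h1.le
      have hle2 : d / N ≤ u / N + L + 1 := by
        calc d / N ≤ (u + L) / N := Nat.div_le_div_right h2
          _ ≤ (u + N * L) / N := Nat.div_le_div_right (by nlinarith)
          _ = u / N + L := Nat.add_mul_div_left _ _ hN0
          _ ≤ u / N + L + 1 := Nat.le_succ _
      have hcast : (((u / N : ℕ) : ℤ) + ((d / N - u / N : ℕ) : ℤ)) = (k : ℤ) := by
        rw [← hk']
        omega
      refine ⟨by show d / N - u / N < L + 2; omega, ?_⟩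
      show ((u / N : ℕ) : ℤ) + ((d / N - u / N : ℕ) : ℤ) ∈ _
      rw [hcast]
      refine ⟨?_, ?_⟩
      · show (M₁ : ℤ) * (k : ℤ) ∈ Cpl G
        have hk0 : 0 < k := by
          rcases Nat.eq_zero_or_pos k with h0 | h0
          · rw [h0, mul_zero] at hk
            omega
          · exact h0
        refine ⟨by positivity, ?_⟩
        have e : ((M₁ : ℤ) * (k : ℤ)).natAbs = M₁ * k := by
          rw [Int.natAbs_mul, Int.natAbs_natCast, Int.natAbs_natCast]
        rw [e]
        intro hG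
        exact h4 ⟨M₁ * k, hG, by rw [hk, hN, mul_assoc]⟩
      · show ∀ θ ∈ T, ‖((θ ^ (k : ℤ) : Circle) : ℂ) - 1‖ < ρ
        refine hconv k fun θ hθ => ?_
        have h6 := (h3 _ (mem_insert_of_mem (mem_image_of_mem (fun θ : ℝ => θ / (N : ℝ)) hθ))).trans_le
          (min_le_left _ _)
        have e : (d : ℝ) * (θ / N) = (k : ℝ) * θ := by
          rw [hk]
          push_cast
          field_simp
        rw [e] at h6
        exact h6
    · intro d hd d' hd' heq
      obtain ⟨k, hk⟩ := hdvd d hd.2.2.1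
      obtain ⟨k', hk'⟩ := hdvd d' hd'.2.2.1
      have e1 : d / N = k := by rw [hk]; exact Nat.mul_div_cancel_left k hN0
      have e2 : d' / N = k' := by rw [hk']; exact Nat.mul_div_cancel_left k' hN0
      have hle : u / N ≤ d / N := Nat.div_le_div_right hd.1.le
      have hle' : u / N ≤ d' / N := Nat.div_le_div_right hd'.1.le
      have heq' : d / N - u / N = d' / N - u / N := heq
      have : k = k' := by omega
      rw [hk, hk', this]
  · push_cast
    have hL1' : (1 : ℝ) ≤ L := by exact_mod_cast hL1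
    nlinarith

end Pool.Agent.TH402.FB
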