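import Pool.Agent.W27.FB.Chain
import Pool.Agent.W505.FN.NullS
import Pool.Agent.W505.FN.Wmh
import Pool.Agent.W505.FN.Clamp
import Pool.Agent.W975.FN.Trg
import Pool.Agent.W352.FN.Bohr
import Pool.Agent.W372.FN.Appr
import Pool.Agent.W756.TF.Ban

set_option autoImplicit false

/-!
# The structure theorem for sets containing all consecutive sums of arbitrarily long sequences

Assembly of the start project `W27.FB`: its missing piece `S_mean` follows from `W756.TF.ban`.
-/

open Filter Topology Finset
open scoped BoundedContinuousFunction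

namespace Pool.Agent.TH402.FB

open Pool.Agent.W634.BQ Pool.Agent.W505.BQ Pool.Agent.W27.FB

theorem s_mean : S_mean := by
  intro S hS
  unfold Null at hS
  push Not at hS
  obtain ⟨ε, hε, h⟩ := hS
  obtain ⟨m, h1, h2, h3⟩ := Pool.Agent.W756.TF.ban S ε (fun L₀ => by
    obtain ⟨L, hL, u, hu⟩ := h L₀
    exact ⟨L, hL, u, hu.le⟩)
  exact ⟨m, h1, h2, hε.trans_le h3⟩

theorem s_appr : S_appr :=
  Pool.Agent.W372.FN.appr Pool.Agent.W505.FN.nul Pool.Agent.W505.FN.wmh Pool.Agent.W975.FN.trg
    (Pool.Agent.W505.FN.clamp Pool.Agent.W975.FN.trg)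

/-- the structure theorem -/
theorem s_main : S_main :=
  Pool.Agent.W27.FB.main Pool.Agent.W505.FN.nul s_mean Pool.Agent.W975.FN.trg
    Pool.Agent.W352.FN.bohr s_appr

/-- differences of partial sums -/
theorem good_sums {E : Set ℤ} : ∀ l : List ℤ, Good E l → ∀ i j : ℕ, i < j → j ≤ l.length →
    (l.take j).sum - (l.take i).sum ∈ E := by
  intro l
  induction l with
  | nil =>
    intro _ i j h1 h2
    simp at h2
    omega
  | cons a l ih =>
    intro h i j hij hj
    obtain ⟨h1, h2⟩ := h
    cases j with
    | zero => omega
    | succ j =>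
      cases i with
      | zero =>
        have := h1 (l.take j) (List.take_prefix j l)
        simpa using this
      | succ i =>
        have := ih h2 i j (by omega) (by simpa using hj)
        simpa using this

end Pool.Agent.TH402.FB
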