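import Pool.Agent.TH402.FB.Gaps

set_option autoImplicit false

/-!
# Differences of primes with related indices

`R` is a relation on indices which holds for some pair among any `m + 1` consecutive indices.
-/

open Filter Topology Finset

namespace Pool.Agent.TH402.FB

open Pool.Agent.H947R3.GM Pool.Agent.W59.GB Pool.Agent.W142.TF Pool.Agent.W27.FB
open Pool.Agent.H732R3.BigQ

/-- the `k` such that, for many primes `n` that are `a` modulo `N`, the number `n + N * k` is a prime and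
the indices of the two primes are related and differ by at most `m` -/
def GapR (N a m : ℕ) (R : ℕ → ℕ → Prop) : Set ℕ :=
  {k | Big {n : ℕ | n.Prime ∧ n ≡ a [MOD N] ∧ (n + N * k).Prime ∧
    Nat.count Nat.Prime n < Nat.count Nat.Prime (n + N * k) ∧
    Nat.count Nat.Prime (n + N * k) ≤ Nat.count Nat.Prime n + m ∧
    R (Nat.count Nat.Prime n) (Nat.count Nat.Prime (n + N * k))}}

/-- the general form: the shifts which are not used are blocked by divisors of `Q` -/
theorem rel_core {T K m : ℕ} (H : Fin T → Fin K → ℕ)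
    (hHinj : Function.Injective (fun x : Fin T × Fin K => H x.1 x.2))
    {M : ℕ} (hM : ∀ g i, H g i ≤ M) {Q r : ℕ} (hQ0 : 0 < Q)
    (hblock : ∀ t ≤ M, (∀ g i, H g i ≠ t) → ∃ q, q.Prime ∧ q ∣ Q ∧ q ∣ r + t)
    {S : Finset (Fin T)} {c : Fin T → Fin K} (hS : m + 1 ≤ S.card)
    {R : ℕ → ℕ → Prop} (hR : ∀ j, ∃ i k, j ≤ i ∧ i < k ∧ k ≤ j + m ∧ R i k)
    (hinf : Big {n : ℕ | ∀ g ∈ S, 0 < (Q : ℤ) * (n : ℤ) + ((r + H g (c g) : ℕ) : ℤ) ∧
        Prime ((Q : ℤ) * (n : ℤ) + ((r + H g (c g) : ℕ) : ℤ))}) :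
    ∃ x y : Fin T × Fin K, H x.1 x.2 < H y.1 y.2 ∧
      Big {n : ℕ | (Q * n + r + H x.1 x.2).Prime ∧ (Q * n + r + H y.1 y.2).Prime ∧
        Nat.count Nat.Prime (Q * n + r + H x.1 x.2) < Nat.count Nat.Prime (Q * n + r + H y.1 y.2) ∧
        Nat.count Nat.Prime (Q * n + r + H y.1 y.2) ≤ Nat.count Nat.Prime (Q * n + r + H x.1 x.2) + m ∧
        R (Nat.count Nat.Prime (Q * n + r + H x.1 x.2)) (Nat.count Nat.Prime (Q * n + r + H y.1 y.2))} := by
  classical
  set X : Set ℕ := {n : ℕ | 2 ≤ n ∧ ∀ g ∈ S, (Q * n + r + H g (c g)).Prime} with hX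
  have hXinf : Big X := by
    refine (big_ge hinf 2).mono ?_
    rintro n ⟨hn, hn2⟩
    refine ⟨hn2, fun g hg => ?_⟩
    have := (hn g hg).2
    rw [Nat.prime_iff_prime_int]
    push_cast at this ⊢
    rwa [add_assoc]
  set Y : (Fin T × Fin K) × (Fin T × Fin K) → Set ℕ := fun z =>
    {n | H z.1.1 z.1.2 < H z.2.1 z.2.2 ∧ (Q * n + r + H z.1.1 z.1.2).Prime ∧
      (Q * n + r + H z.2.1 z.2.2).Prime ∧
      Nat.count Nat.Prime (Q * n + r + H z.1.1 z.1.2) <
        Nat.count Nat.Prime (Q * n + r + H z.2.1 z.2.2) ∧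
      Nat.count Nat.Prime (Q * n + r + H z.2.1 z.2.2) ≤
        Nat.count Nat.Prime (Q * n + r + H z.1.1 z.1.2) + m ∧
      R (Nat.count Nat.Prime (Q * n + r + H z.1.1 z.1.2))
        (Nat.count Nat.Prime (Q * n + r + H z.2.1 z.2.2))} with hY
  have hcover : X ⊆ ⋃ z, Y z := by
    rintro n ⟨hn2, hn⟩
    -- non-shifts give composite numbers
    have hcomp : ∀ t ≤ M, (∀ g i, H g i ≠ t) → ¬ (Q * n + r + t).Prime := by
      intro t ht hne hpr
      obtain ⟨q, hqp, hqQ, hqr⟩ := hblock t ht hne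
      have h1 : q ∣ Q * n + r + t := by
        rw [add_assoc]
        exact dvd_add (hqQ.mul_right n) hqr
      have h2 : q = Q * n + r + t := (Nat.prime_dvd_prime_iff_eq hqp hpr).1 h1
      have h3 : q ≤ Q := Nat.le_of_dvd hQ0 hqQ
      have h4 := hqp.pos
      nlinarith
    -- the number of primes of the window
    obtain ⟨j, hj⟩ : ∃ j, j = Nat.count Nat.Prime (Q * n + r) := ⟨_, rfl⟩
    have hcnt : j + (m + 1) ≤ Nat.count Nat.Prime (Q * n + r + (M + 1)) := by
      rw [Nat.count_add, hj]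
      refine Nat.add_le_add_left (hS.trans ?_) _
      rw [Nat.count_eq_card_filter_range]
      refine Finset.card_le_card_of_injOn (fun g => H g (c g)) ?_ ?_
      · intro g hg
        rw [Finset.mem_coe] at hg
        rw [Finset.mem_coe, Finset.mem_filter, Finset.mem_range]
        exact ⟨Nat.lt_succ_of_le (hM _ _), hn g hg⟩
      · intro g _ g' _ h
        exact (Prod.mk.inj (hHinj (a₁ := (g, c g)) (a₂ := (g', c g')) h)).1
    obtain ⟨i, k, hji, hik, hkm, hRik⟩ := hR j
    have key : ∀ i, j ≤ i → i ≤ j + m → ∃ z : Fin T × Fin K,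
        Nat.nth Nat.Prime i = Q * n + r + H z.1 z.2 := by
      intro i h1 h2
      have h3 : Nat.nth Nat.Prime i < Q * n + r + (M + 1) := Nat.nth_lt_of_lt_count (by omega)
      have h4 : Q * n + r ≤ Nat.nth Nat.Prime i := by
        by_contra h5
        push Not at h5
        have h6 : Nat.count Nat.Prime (Nat.nth Nat.Prime i) = i :=
          Nat.count_nth_of_infinite Nat.infinite_setOfPred_prime i
        have h7 : Nat.count Nat.Prime (Nat.nth Nat.Prime i + 1) ≤ Nat.count Nat.Prime (Q * n + r) :=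
          Nat.count_monotone _ h5
        rw [Nat.count_succ, if_pos (Nat.prime_nth_prime i), h6] at h7
        omega
      obtain ⟨t, ht⟩ : ∃ t, Nat.nth Nat.Prime i = Q * n + r + t :=
        ⟨Nat.nth Nat.Prime i - (Q * n + r), by omega⟩
      have hp : (Q * n + r + t).Prime := by rw [← ht]; exact Nat.prime_nth_prime i
      by_contra hne
      push Not at hne
      refine hcomp t (by omega) (fun g i' h => ?_) hp
      exact hne (g, i') (by rw [ht, ← h])
    obtain ⟨x, hx⟩ := key i hji (by omega)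
    obtain ⟨y, hy⟩ := key k (by omega) hkm
    have hci : Nat.count Nat.Prime (Q * n + r + H x.1 x.2) = i := by
      rw [← hx]
      exact Nat.count_nth_of_infinite Nat.infinite_setOfPred_prime i
    have hck : Nat.count Nat.Prime (Q * n + r + H y.1 y.2) = k := by
      rw [← hy]
      exact Nat.count_nth_of_infinite Nat.infinite_setOfPred_prime k
    have hlt : Nat.nth Nat.Prime i < Nat.nth Nat.Prime k :=
      Nat.nth_strictMono Nat.infinite_setOfPred_prime hik
    rw [Set.mem_iUnion]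
    refine ⟨(x, y), ?_, ?_, ?_, ?_, ?_, ?_⟩
    · show H x.1 x.2 < H y.1 y.2
      omega
    · show (Q * n + r + H x.1 x.2).Prime
      rw [← hx]; exact Nat.prime_nth_prime i
    · show (Q * n + r + H y.1 y.2).Prime
      rw [← hy]; exact Nat.prime_nth_prime k
    · show Nat.count Nat.Prime (Q * n + r + H x.1 x.2) < Nat.count Nat.Prime (Q * n + r + H y.1 y.2)
      rw [hci, hck]; exact hik
    · show Nat.count Nat.Prime (Q * n + r + H y.1 y.2) ≤
        Nat.count Nat.Prime (Q * n + r + H x.1 x.2) + m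
      rw [hci, hck]; omega
    · show R (Nat.count Nat.Prime (Q * n + r + H x.1 x.2))
        (Nat.count Nat.Prime (Q * n + r + H y.1 y.2))
      rw [hci, hck]; exact hRik
  obtain ⟨z, hz⟩ := big_cover Y X hXinf hcover
  obtain ⟨n₀, hn₀⟩ := hz.infinite.nonempty
  exact ⟨z.1, z.2, hn₀.1, hz.mono fun n hn => hn.2⟩

open Classical in
/-- related indices in every admissible family -/
theorem relB (hQ : QuarterB) {N a : ℕ} (hN : 0 < N) (ha : a.Coprime N) (m : ℕ) {R : ℕ → ℕ → Prop}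
    (hR : ∀ j, ∃ i k, j ≤ i ∧ i < k ∧ k ≤ j + m ∧ R i k) :
    ∃ T K : ℕ, 1 ≤ K ∧ ∀ H : Fin T → Fin K → ℕ, AdmN N H →
    ∃ x y : Fin T × Fin K, H x.1 x.2 < H y.1 y.2 ∧ H y.1 y.2 - H x.1 x.2 ∈ GapR N a m R := by
  obtain ⟨K, hK, h⟩ := hQ (4 * (m + 1))
  refine ⟨4 * (m + 1), K, hK, fun H hH => ?_⟩
  set H' : Fin (4 * (m + 1)) → Fin K → ℕ := fun g i => N * H g i with hH'
  have hinjH' : Function.Injective (fun x : Fin (4 * (m + 1)) × Fin K => H' x.1 x.2) := by
    intro x y hxy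
    exact hH.1 (Nat.eq_of_mul_eq_mul_left hN hxy)
  -- a bound for the shifts
  obtain ⟨M, hM⟩ : ∃ M, ∀ g i, H' g i ≤ M :=
    ⟨univ.sup fun x : Fin (4 * (m + 1)) × Fin K => H' x.1 x.2, fun g i =>
      le_sup (f := fun x : Fin (4 * (m + 1)) × Fin K => H' x.1 x.2) (mem_univ (g, i))⟩
  set q : ℕ → ℕ := fun t => Nat.nth Nat.Prime (M + N + t) with hq
  have hqp : ∀ t, (q t).Prime := fun t => Nat.prime_nth_prime _
  have hqM : ∀ t, M + N + t < q t := fun t => by
    have := Nat.add_two_le_nth_prime (M + N + t)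
    simp only [hq]; omega
  have hqinj : Function.Injective q := by
    intro s t hst
    have := Nat.nth_injective Nat.infinite_setOfPred_prime hst
    omega
  set U : Finset ℕ := (range (M + 1)).filter fun t => ∀ g i, H' g i ≠ t with hU
  have hpair : Set.Pairwise (U : Set ℕ) (Function.onFun Nat.Coprime q) := by
    intro s _ t _ hst
    exact (Nat.coprime_primes (hqp s) (hqp t)).2 fun h => hst (hqinj h)
  obtain ⟨r₀, hr₀⟩ := Nat.chineseRemainderOfFinset (fun t => q t - t) q U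
    (fun t _ => (hqp t).ne_zero) hpair
  set Q₀ : ℕ := ∏ t ∈ U, q t with hQ₀def
  have hQ₀ : 0 < Q₀ := prod_pos fun t _ => (hqp t).pos
  have hcopN : Nat.Coprime Q₀ N := by
    refine Nat.Coprime.prod_left fun t _ => ?_
    rw [Nat.Prime.coprime_iff_not_dvd (hqp t)]
    intro hd
    have h1 := Nat.le_of_dvd hN hd
    have h2 := hqM t
    omega
  obtain ⟨r, hrQ, hrN⟩ := Nat.chineseRemainder hcopN r₀ a
  have hr' : ∀ t ∈ U, q t ∣ r + t := by
    intro t ht
    have h0 : r ≡ r₀ [MOD q t] := hrQ.of_dvd (dvd_prod_of_mem q ht)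
    have h1 := (h0.trans (hr₀ t ht)).add_right t
    have h2 : q t - t + t = q t := by have := hqM t; omega
    rw [h2] at h1
    exact (Nat.modEq_zero_iff_dvd.1 (h1.trans (by simp [Nat.ModEq])))
  set Q : ℕ := Q₀ * N with hQdef
  have hQ0 : 0 < Q := Nat.mul_pos hQ₀ hN
  obtain ⟨S, c, hS, hinf⟩ := h (fun _ _ => (Q : ℤ)) (fun g i => ((r + H' g i : ℕ) : ℤ))
    (fun _ _ => by exact_mod_cast hQ0)
    (by
      intro x y hxy
      apply hinjH'
      simp only [Prod.mk.injEq, Nat.cast_inj, true_and] at hxy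
      exact Nat.add_left_cancel hxy)
    (by
      intro p hp
      by_cases hpN : p ∣ N
      · refine ⟨0, fun g i hd => ?_⟩
        rw [mul_zero, zero_add] at hd
        have hd' : p ∣ r + N * H g i := by exact_mod_cast hd
        have h1 : p ∣ r := (Nat.dvd_add_left (hpN.mul_right _)).1 hd'
        have h2 : p ∣ a := by
          have h3 : r ≡ a [MOD p] := hrN.of_dvd hpN
          exact (h3.dvd_iff dvd_rfl).1 h1
        have h4 : p ∣ Nat.gcd a N := Nat.dvd_gcd h2 hpN
        rw [ha] at h4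
        exact hp.one_lt.ne' (Nat.dvd_one.1 h4)
      by_cases hpQ : p ∣ Q₀
      · refine ⟨0, fun g i hd => ?_⟩
        obtain ⟨t, htU, hpt⟩ := (hp.prime.dvd_finsetProd_iff _).1 hpQ
        have hpq : p = q t := (Nat.prime_dvd_prime_iff_eq hp (hqp t)).1 hpt
        rw [mul_zero, zero_add] at hd
        have hd' : q t ∣ r + H' g i := by rw [← hpq]; exact_mod_cast hd
        have h1 := hr' t htU
        have hne : H' g i ≠ t := (mem_filter.1 htU).2 g i
        have htM : t ≤ M := by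
          have := (mem_filter.1 htU).1
          rw [mem_range] at this; omega
        have h2 : (q t : ℤ) ∣ (H' g i : ℤ) - t := by
          have h3 : (q t : ℤ) ∣ ((r + H' g i : ℕ) : ℤ) - ((r + t : ℕ) : ℤ) :=
            dvd_sub (by exact_mod_cast hd') (by exact_mod_cast h1)
          push_cast at h3
          have e : (r : ℤ) + H' g i - (r + t) = H' g i - t := by ring
          rwa [e] at h3
        have h4 : |(H' g i : ℤ) - t| < q t := by
          have := hqM t
          have h5 := hM g i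
          rw [abs_lt]
          constructor <;> omega
        have h6 := Int.eq_zero_of_abs_lt_dvd h2 h4
        omega
      · obtain ⟨n₀, hn₀⟩ := hH.2 p hp hpN
        have hpQ' : ¬ p ∣ Q := fun h => (hp.dvd_mul.1 h).elim hpQ hpN
        have hcop : IsCoprime (Q : ℤ) (p : ℤ) := by
          rw [Nat.isCoprime_iff_coprime]
          exact ((Nat.Prime.coprime_iff_not_dvd hp).2 hpQ').symm
        obtain ⟨u, v, huv⟩ := hcop
        refine ⟨u * (N * n₀ - r), fun g i hd => ?_⟩
        have hd2 : (p : ℤ) ∣ N * (n₀ + H g i) := by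
          have e : (N : ℤ) * (n₀ + H g i) = ((Q : ℤ) * (u * (N * n₀ - r)) + ((r + H' g i : ℕ) : ℤ)) +
              p * (v * (N * n₀ - r)) := by
            simp only [hH']
            push_cast
            linear_combination (-(N * n₀ - (r : ℤ))) * huv
          rw [e]
          exact dvd_add hd (dvd_mul_right _ _)
        rcases (Nat.prime_iff_prime_int.1 hp).dvd_or_dvd hd2 with h1 | h1
        · exact hpN (by exact_mod_cast h1)
        · exact hn₀ g i h1)
  obtain ⟨x, y, hlt, hx⟩ := rel_core H' hinjH' hM hQ0 (r := r) (m := m) (R := R) (by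
    intro t ht hne
    have htU : t ∈ U := by
      rw [hU, mem_filter, mem_range]; exact ⟨by omega, hne⟩
    exact ⟨q t, hqp t, (dvd_prod_of_mem q htU).mul_right N, hr' t htU⟩) (by omega) hR hinf
  have hlt' : H x.1 x.2 < H y.1 y.2 := Nat.lt_of_mul_lt_mul_left hlt
  refine ⟨x, y, hlt', ?_⟩
  refine hx.affine Q ((r + H' x.1 x.2 : ℕ) : ℤ) hQ0 (fun n => Q * n + r + H' x.1 x.2)
    (fun n _ => by push_cast; ring) ?_
  rintro n ⟨hp1, hp2, h3, h4, h5⟩
  have e : Q * n + r + H' x.1 x.2 + N * (H y.1 y.2 - H x.1 x.2) = Q * n + r + H' y.1 y.2 := by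
    rw [Nat.mul_sub]
    simp only [hH'] at hlt ⊢
    omega
  show (Q * n + r + H' x.1 x.2).Prime ∧ Q * n + r + H' x.1 x.2 ≡ a [MOD N] ∧
    (Q * n + r + H' x.1 x.2 + N * (H y.1 y.2 - H x.1 x.2)).Prime ∧ _ ∧ _ ∧ _
  rw [e]
  refine ⟨hp1, ?_, hp2, h3, h4, h5⟩
  have h1 : Q * n ≡ 0 [MOD N] := by
    rw [Nat.modEq_zero_iff_dvd, hQdef]
    exact (dvd_mul_left N Q₀).mul_right n
  have h2 : H' x.1 x.2 ≡ 0 [MOD N] := by
    rw [Nat.modEq_zero_iff_dvd]
    exact dvd_mul_right N _
  simpa using (h1.add hrN).add h2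

/-- the exceptional set is null in some Bohr set -/
theorem gapsR (q a : ℕ) (hq : 0 < q) (ha : a.Coprime q) (m : ℕ) {R : ℕ → ℕ → Prop}
    (hR : ∀ j, ∃ i k, j ≤ i ∧ i < k ∧ k ≤ j + m ∧ R i k) : ∃ M₁ : ℕ, 0 < M₁ ∧
    ∃ (T : Finset Circle) (ρ : ℝ), 0 < ρ ∧
    Null ({k : ℤ | (M₁ : ℤ) * k ∈ Cpl (GapR q a m R)} ∩ Bo T ρ) := by
  classical
  obtain ⟨n, K, hK, hcon⟩ := relB Pool.Agent.H732R3.BigQ.quarterB hq ha m hR
  refine ⟨(n * K).factorial, Nat.factorial_pos _, ?_⟩
  by_contra hne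
  push Not at hne
  obtain ⟨E, hE⟩ : ∃ E : Set ℤ, E = {k : ℤ | (((n * K).factorial : ℕ) : ℤ) * k ∈
      Cpl (GapR q a m R)} := ⟨_, rfl⟩
  rw [← hE] at hne
  have h0 : (0 : ℤ) ∉ E := by rw [hE]; exact zero_notMem
  obtain ⟨l, hl, hgood⟩ := s_main E hne (n * K)
  have hs := good_sums l hgood
  obtain ⟨A, hA⟩ : ∃ A : ℕ → ℕ → ℤ, A = fun g i => if g < n then (l.take (g * K + i)).sum else i :=
    ⟨_, rfl⟩
  have hlt : ∀ g < n, ∀ i < K, g * K + i < n * K := by
    intro g hg i hi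
    have h1 : (g + 1) * K ≤ n * K := Nat.mul_le_mul_right _ hg
    rw [Nat.add_mul, one_mul] at h1
    omega
  have hAE : ∀ g < n, ∀ g' < n, ∀ i < K, ∀ i' < K, g * K + i < g' * K + i' →
      A g' i' - A g i ∈ E := by
    intro g hg g' hg' i hi i' hi' h
    have h2 := hs (g * K + i) (g' * K + i') h (by have := hlt g' hg' i' hi'; omega)
    rw [hA]
    simp only [hg, hg', if_true]
    exact h2
  have hinj : ∀ j, Set.InjOn (A j) {k | k < K} := by
    intro j k hk k' hk' h
    simp only [Set.mem_ofPred_eq] at hk hk'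
    by_cases hj : j < n
    · rcases lt_trichotomy k k' with hlt | heq | hgt
      · have := hAE j hj j hj k hk k' hk' (by omega)
        rw [h, sub_self] at this
        exact absurd this h0
      · exact heq
      · have := hAE j hj j hj k' hk' k hk (by omega)
        rw [h, sub_self] at this
        exact absurd this h0
    · rw [hA] at h
      simp only [hj, if_false] at h
      exact_mod_cast h
  have hord : ∀ i j, i < j → ∀ k k', k < K → k' < K → i * K + k' < j * K + k := by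
    intro i j hij k k' hk hk'
    have h1 : (i + 1) * K ≤ j * K := Nat.mul_le_mul_right _ hij
    rw [Nat.add_mul, one_mul] at h1
    omega
  obtain ⟨H, C, hH⟩ := points n K (n * K).factorial (fun _ => 1) A
  have hadm : AdmN q H := admN_of (Nat.factorial_pos _)
    (fun p hp hle => Nat.dvd_factorial hp.pos hle) (fun _ => 1) A (fun _ => le_refl 1) hinj
    (fun i j hij hj k k' hk hk' h => by
      have h1 := hAE i (by omega) j hj k' hk' k hk (hord i j hij k k' hk hk')
      have h2 : A j k - A i k' = 0 := by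
        push_cast at h
        linarith
      rw [h2] at h1
      exact h0 h1) H C hH
  obtain ⟨⟨g, i⟩, ⟨g', i'⟩, hlt', hG⟩ := hcon H hadm
  simp only at hlt' hG
  have key : ∀ {x y : ℤ}, x - y ∈ E → (((n * K).factorial : ℕ) : ℤ) *
      (((1 : ℕ) : ℤ) * x - ((1 : ℕ) : ℤ) * y) ∈ Cpl (GapR q a m R) := by
    intro x y h
    rw [hE] at h
    have e : ((1 : ℕ) : ℤ) * x - ((1 : ℕ) : ℤ) * y = x - y := by push_cast; ring
    rw [e]
    exact h
  rcases lt_trichotomy ((g : ℕ) * K + i) ((g' : ℕ) * K + i') with h | h | h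
  · have h1 := not_Cpl C (hH g' i') (hH g i)
      (key (hAE g g.2 g' g'.2 i i.2 i' i'.2 h))
    exact h1.2.2 hlt' hG
  · -- the same position
    exfalso
    have hg : (g : ℕ) = g' := by
      rcases lt_trichotomy (g : ℕ) g' with h2 | h2 | h2
      · have := hord g g' h2 i' i i'.2 i.2
        omega
      · exact h2
      · have := hord g' g h2 i i' i.2 i'.2
        omega
    have hg' : g = g' := Fin.ext hg
    subst hg'
    have hi : i = i' := Fin.ext (by omega)
    subst hi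
    exact lt_irrefl _ hlt'
  · have h1 := not_Cpl C (hH g i) (hH g' i')
      (key (hAE g' g'.2 g g.2 i' i'.2 i i.2 h))
    exact h1.2.1 hlt' hG

/-- the count of the indices -/
theorem nthR {N a m k : ℕ} {R : ℕ → ℕ → Prop} (hk : k ∈ GapR N a m R) (η : ℝ) (hη : 0 < η) :
    ∃ᶠ x : ℝ in atTop, x ^ (1 - η) ≤ ({n : ℕ | (Nat.nth Nat.Prime n : ℝ) ≤ x ∧
      Nat.nth Nat.Prime n ≡ a [MOD N] ∧
      ∃ j, n < j ∧ j ≤ n + m ∧ R n j ∧ Nat.nth Nat.Prime j = Nat.nth Nat.Prime n + N * k}.ncard : ℝ) := by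
  have h := hk η hη
  refine h.mono fun x hx => hx.trans ?_
  have hfin : {n : ℕ | (Nat.nth Nat.Prime n : ℝ) ≤ x ∧ Nat.nth Nat.Prime n ≡ a [MOD N] ∧
      ∃ j, n < j ∧ j ≤ n + m ∧ R n j ∧
        Nat.nth Nat.Prime j = Nat.nth Nat.Prime n + N * k}.Finite := by
    apply (Set.finite_Iic ⌊x⌋₊).subset
    rintro n ⟨h, -⟩
    rw [Set.mem_Iic]
    apply Nat.le_floor
    have h1 := Nat.add_two_le_nth_prime n
    have h2 : (n : ℝ) ≤ Nat.nth Nat.Prime n := by exact_mod_cast (by omega : n ≤ Nat.nth Nat.Prime n)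
    linarith
  obtain ⟨F, hF⟩ : ∃ F : Set ℕ, F = {n : ℕ | n.Prime ∧ n ≡ a [MOD N] ∧ (n + N * k).Prime ∧
    Nat.count Nat.Prime n < Nat.count Nat.Prime (n + N * k) ∧
    Nat.count Nat.Prime (n + N * k) ≤ Nat.count Nat.Prime n + m ∧
    R (Nat.count Nat.Prime n) (Nat.count Nat.Prime (n + N * k))} := ⟨_, rfl⟩
  rw [← hF]
  have h1 : Set.InjOn (fun p => Nat.count Nat.Prime p) {n : ℕ | n ∈ F ∧ (n : ℝ) ≤ x} := by
    rintro p ⟨hp, -⟩ q ⟨hq, -⟩ hpq
    rw [hF] at hp hq
    have h1 := Nat.nth_count (p := Nat.Prime) hp.1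
    have h2 := Nat.nth_count (p := Nat.Prime) hq.1
    simp only at hpq
    rw [← h1, ← h2, hpq]
  rw [← h1.ncard_image]
  refine Nat.cast_le.2 (Set.ncard_le_ncard ?_ hfin)
  rintro _ ⟨p, ⟨hp, hpx⟩, rfl⟩
  rw [hF] at hp
  obtain ⟨h2, h3, h4, h5, h6, h7⟩ := hp
  refine ⟨?_, ?_, Nat.count Nat.Prime (p + N * k), h5, h6, h7, ?_⟩
  · show (Nat.nth Nat.Prime (Nat.count Nat.Prime p) : ℝ) ≤ x
    rw [Nat.nth_count h2]; exact hpx
  · show Nat.nth Nat.Prime (Nat.count Nat.Prime p) ≡ a [MOD N]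
    rw [Nat.nth_count h2]; exact h3
  · rw [Nat.nth_count h4, Nat.nth_count h2]

end Pool.Agent.TH402.FB
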